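import Mathlib
import Pool.Agent.W7h60.Iso.Final

/-!
# The isomorphism problem for self-similar groups (MP_56d946_al)

No algorithm decides, for two finite invertible automata, whether the self-similar groups they
generate are isomorphic; this is so even when the second automaton is a certain fixed one.

Idea: affine groups `ℤ⁶ ⋊ Γ`, with `Γ` a finitely generated group of matrices with natural entries,
act on the 64-ary tree (binary digits of integer vectors) by automata. We take for `Γ` subgroups of
`F × F × {1, -1}`, `F` a free group of matrices, generated by Mikhailova's fibre product together
with one element `(w, 1, -1)`, where `w` is a double commutator built from a word of a finitely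
presented group with undecidable word problem. If the word is trivial, then the group does not
depend on it and has an element of order two; otherwise it has none.
-/

set_option autoImplicit false

namespace Pool.Agent.Results.MP_56d946_al.IsoUndecidable

open Pool.Agent.W7h60.Iso

/-- There is no algorithm which decides for all pairs of finite invertible automata `A`, `B`, given
by their finite tables, whether the groups generated by their states are isomorphic. Moreover there
is one fixed automaton `B` such that no algorithm decides this for all automata `A`. -/
theorem result :
    (¬ ∃ f : (ℕ × List (List (ℕ × ℕ))) × (ℕ × List (List (ℕ × ℕ))) → Bool, Computable f ∧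
      ∀ A B : Automaton, f (A.code, B.code) = true ↔ Nonempty (A.group ≃* B.group)) ∧
    ∃ B : Automaton, ¬ ∃ f : ℕ × List (List (ℕ × ℕ)) → Bool, Computable f ∧
      ∀ A : Automaton, f A.code = true ↔ Nonempty (A.group ≃* B.group) := by
  refine ⟨?_, iso_fixed⟩
  rintro ⟨f, hf, h⟩
  obtain ⟨B, hB⟩ := iso_fixed
  exact hB ⟨fun c => f (c, B.code), hf.comp (Computable.pair Computable.id (Computable.const _)),
    fun A => h A B⟩

end Pool.Agent.Results.MP_56d946_al.IsoUndecidable
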